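import Mathlib

set_option autoImplicit false

/-!
The structural number of an infinite-dimensional countable-dimensional metrizable space with
respect to the class of metrizable spaces of covering dimension zero is `ℵ₀`.
-/

universe u v

namespace Pool.Agent.Results.MP_e04a0d_gt.SnCountable

open Set TopologicalSpace Filter
open scoped Topology Cardinal

/-- Covering dimension at most `n`: every finite open cover has a finite open refinement in
which every point lies in at most `n + 1` members. -/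
def CoveringDimLE (X : Type u) [TopologicalSpace X] (n : ℕ) : Prop :=
  ∀ 𝒰 : Set (Set X), 𝒰.Finite → (∀ U ∈ 𝒰, IsOpen U) → ⋃₀ 𝒰 = univ →
    ∃ 𝒱 : Set (Set X), 𝒱.Finite ∧ (∀ V ∈ 𝒱, IsOpen V) ∧ ⋃₀ 𝒱 = univ ∧
      (∀ V ∈ 𝒱, ∃ U ∈ 𝒰, V ⊆ U) ∧ ∀ x, {V ∈ 𝒱 | x ∈ V}.encard ≤ n + 1

/-- A space is countable-dimensional if it is the union of countably many subspaces of covering
dimension at most `0`. -/
def CountableDimensional (X : Type u) [TopologicalSpace X] : Prop :=
  ∃ Y : ℕ → Set X, (⋃ k, Y k) = univ ∧ ∀ k, CoveringDimLE (Y k) 0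

/-- The topology `σ` is metrizable with covering dimension at most `0`. -/
structure IsMDim {X : Type u} (σ : TopologicalSpace X) : Prop where
  metrizable : @MetrizableSpace X σ
  dim : @CoveringDimLE X σ 0

/-- `τ` is the intersection of the family `σ` of extensions of `τ`, each of which is metrizable
with covering dimension at most `0`. -/
structure IsIntersection {X : Type u} (τ : TopologicalSpace X) {I : Type v}
    (σ : I → TopologicalSpace X) : Prop where
  extension : ∀ i, ∀ U : Set X, IsOpen[τ] U → IsOpen[σ i] U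
  mdim : ∀ i, IsMDim (σ i)
  inter : ∀ U : Set X, (∀ i, IsOpen[σ i] U) → IsOpen[τ] U

/-! ### Order preserving expansions -/

section expansion

variable {X : Type u} [MetricSpace X]

/-- The expansion of a subset `C` of `Y` to an open set of `X`. -/
def expand (Y C : Set X) (ε : ℝ) : Set X :=
  {x | ∃ c ∈ C, ∃ r : ℝ, 0 < r ∧ r ≤ ε ∧ dist x c < r ∧ ∀ z ∈ Y, dist z c < 2 * r → z ∈ C}

lemma isOpen_expand (Y C : Set X) (ε : ℝ) : IsOpen (expand Y C ε) := by
  rw [Metric.isOpen_iff]
  rintro x ⟨c, hc, r, hr, hrε, hxc, hz⟩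
  refine ⟨r - dist x c, by linarith, fun y hy => ?_⟩
  rw [Metric.mem_ball] at hy
  refine ⟨c, hc, r, hr, hrε, ?_, hz⟩
  have := dist_triangle y x c
  linarith

lemma subset_expand {Y C O : Set X} {ε : ℝ} (hε : 0 < ε) (hO : IsOpen O) (hC : C = Y ∩ O) :
    C ⊆ expand Y C ε := by
  intro c hc
  have hcO : c ∈ O := by
    rw [hC] at hc
    exact hc.2
  obtain ⟨δ, hδ, hball⟩ := Metric.isOpen_iff.1 hO c hcO
  refine ⟨c, hc, min ε (δ / 2), lt_min hε (half_pos hδ), min_le_left _ _, ?_, ?_⟩
  · rw [dist_self]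
    exact lt_min hε (half_pos hδ)
  · intro z hz hzc
    rw [hC]
    refine ⟨hz, hball ?_⟩
    rw [Metric.mem_ball]
    have := min_le_right ε (δ / 2)
    linarith

lemma expand_mono {Y C C' : Set X} {ε ε' : ℝ} (h : C ⊆ C') (h' : ε ≤ ε')
    : expand Y C ε ⊆ expand Y C' ε' := by
  rintro x ⟨c, hc, r, hr, hrε, hxc, hz⟩
  exact ⟨c, h hc, r, hr, hrε.trans h', hxc, fun z hz1 hz2 => h (hz z hz1 hz2)⟩

/-- Expansions of finitely many sets containing a common point come from sets containing a
common point. -/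
lemma exists_common {ι : Type v} {Y : Set X} {C : ι → Set X} {ε : ℝ}
    {x : X} (S : Finset ι) (hCY : ∀ i ∈ S, C i ⊆ Y) (hS : S.Nonempty)
    (hx : ∀ i ∈ S, x ∈ expand Y (C i) ε) :
    ∃ c ∈ Y, ∀ i ∈ S, c ∈ C i := by
  classical
  have hne : Nonempty X := ⟨x⟩
  choose! c hc r hr hrε hxc hz using hx
  obtain ⟨i0, hi0, hmin⟩ := S.exists_min_image (fun i => dist x (c i)) hS
  refine ⟨c i0, hCY _ hi0 (hc i0 hi0), fun i hi => ?_⟩
  apply hz i hi _ (hCY _ hi0 (hc i0 hi0))
  have h1 := dist_triangle (c i0) x (c i)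
  have h2 := hmin i hi
  have h3 := hxc i hi
  rw [dist_comm (c i0) x] at h1
  linarith

end expansion

/-! ### The counting lemma -/

lemma count_aux {α : Type u} [DecidableEq α] (𝒦 : Finset (Finset α)) (j n : ℕ)
    (hcard : ∀ K ∈ 𝒦, K.card = j)
    (hbranch : ∀ L : Finset α, L.card < j → ∃ R : Finset α, R.card ≤ n ∧ (∀ P ∈ R, P ∉ L) ∧
      ∀ K ∈ 𝒦, L ⊆ K → ∃ P ∈ R, P ∈ K) (m : ℕ) :
    ∀ L : Finset α, L.card + m = j → (𝒦.filter fun K => L ⊆ K).card ≤ n ^ m := by
  induction m with
  | zero =>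
    intro L hL
    have : (𝒦.filter fun K => L ⊆ K) ⊆ {L} := by
      intro K hK
      rw [Finset.mem_filter] at hK
      rw [Finset.mem_singleton]
      symm
      apply Finset.eq_of_subset_of_card_le hK.2
      rw [hcard K hK.1]
      omega
    simpa using Finset.card_le_card this
  | succ m ih =>
    intro L hL
    obtain ⟨R, hR, hRL, hRK⟩ := hbranch L (by omega)
    have hsub : (𝒦.filter fun K => L ⊆ K) ⊆
        R.biUnion fun P => 𝒦.filter fun K => insert P L ⊆ K := by
      intro K hK
      rw [Finset.mem_filter] at hK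
      obtain ⟨P, hP, hPK⟩ := hRK K hK.1 hK.2
      rw [Finset.mem_biUnion]
      refine ⟨P, hP, Finset.mem_filter.2 ⟨hK.1, ?_⟩⟩
      exact Finset.insert_subset hPK hK.2
    refine (Finset.card_le_card hsub).trans ?_
    refine (Finset.card_biUnion_le_card_mul R _ (n ^ m) ?_).trans ?_
    · intro P hP
      apply ih
      rw [Finset.card_insert_of_notMem (hRL P hP)]
      omega
    · rw [pow_succ, mul_comm (n ^ m) n]
      exact Nat.mul_le_mul_right _ hR

lemma count {α : Type u} [DecidableEq α] (𝒦 : Finset (Finset α)) (j n : ℕ)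
    (hcard : ∀ K ∈ 𝒦, K.card = j)
    (hbranch : ∀ L : Finset α, L.card < j → ∃ R : Finset α, R.card ≤ n ∧ (∀ P ∈ R, P ∉ L) ∧
      ∀ K ∈ 𝒦, L ⊆ K → ∃ P ∈ R, P ∈ K) :
    𝒦.card ≤ n ^ j := by
  have := count_aux 𝒦 j n hcard hbranch j ∅ (by simp)
  simpa using this

/-! ### The refinement lemma -/

section refinement

variable {X : Type u} [MetricSpace X]

/-- If a finite family `Φ` of sets with closures inside members of the finite open cover `𝒰` has
multiplicity at most `n`, and the members of `Φ` containing a point `x` together form a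
neighbourhood of `x`, then `𝒰` has a finite open refinement of order bounded in terms of `n`. -/
lemma exists_refinement (n : ℕ) (𝒰 : Set (Set X)) (hop : ∀ U ∈ 𝒰, IsOpen U)
    (Φ : Finset (Set X)) (hcl : ∀ P ∈ Φ, ∃ U ∈ 𝒰, closure P ⊆ U)
    (hmult : ∀ x, {P ∈ (Φ : Set (Set X)) | x ∈ P}.encard ≤ n)
    (hnhd : ∀ x, ⋃₀ {P ∈ (Φ : Set (Set X)) | x ∈ P} ∈ 𝓝 x) :
    ∃ 𝒱 : Set (Set X), 𝒱.Finite ∧ (∀ V ∈ 𝒱, IsOpen V) ∧ ⋃₀ 𝒱 = univ ∧
      (∀ V ∈ 𝒱, ∃ U ∈ 𝒰, V ⊆ U) ∧
      ∀ x, {V ∈ 𝒱 | x ∈ V}.encard ≤ ((∑ j ∈ Finset.Icc 1 n, n ^ j : ℕ) : ℕ∞) := by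
  classical
  -- the members of `Φ` containing a point
  let At : X → Finset (Set X) := fun x => Φ.filter fun P => x ∈ P
  have hAt : ∀ x, ((At x : Finset (Set X)) : Set (Set X)) = {P ∈ (Φ : Set (Set X)) | x ∈ P} := by
    intro x
    ext P
    simp [At]
  have hAtc : ∀ x, (At x).card ≤ n := by
    intro x
    have := hmult x
    rw [← hAt, encard_coe_eq_coe_finsetCard] at this
    exact_mod_cast this
  -- kernels
  let ker : X → Finset (Finset (Set X)) := fun x =>
    Φ.powerset.filter fun K => ⋃₀ (K : Set (Set X)) ∈ 𝓝 x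
  have hker : ∀ x K, K ∈ ker x ↔ K ⊆ Φ ∧ ⋃₀ (K : Set (Set X)) ∈ 𝓝 x := by
    intro x K
    simp [ker]
  have hkerAt : ∀ x, At x ∈ ker x := by
    intro x
    rw [hker, hAt]
    exact ⟨Finset.filter_subset _ _, hnhd x⟩
  have hmin : ∀ x, ∃ K ∈ ker x, ∀ L ∈ ker x, K.card ≤ L.card := fun x =>
    (ker x).exists_min_image Finset.card ⟨_, hkerAt x⟩
  choose K0 hK0 hK0min using hmin
  let j : X → ℕ := fun x => (K0 x).card
  have hjn : ∀ x, j x ≤ n := fun x => (hK0min x _ (hkerAt x)).trans (hAtc x)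
  have hkne : ∀ x K, K ∈ ker x → K.Nonempty := by
    intro x K hK
    rw [Finset.nonempty_iff_ne_empty]
    rintro rfl
    have := mem_of_mem_nhds ((hker x _).1 hK).2
    simp at this
  have hj1 : ∀ x, 1 ≤ j x := fun x => Finset.card_pos.2 (hkne x _ (hK0 x))
  -- the pieces
  let Y : ℕ → Set X := fun m => {x | j x = m}
  let C : Finset (Set X) → Set X := fun K => {x | K ∈ ker x ∧ j x = K.card}
  have hCY : ∀ K, C K ⊆ Y K.card := fun K x hx => hx.2
  have hCeq : ∀ K, K ⊆ Φ → C K = Y K.card ∩ interior (⋃₀ (K : Set (Set X))) := by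
    intro K hK
    ext x
    simp only [C, Y, mem_ofPred_eq, hker, mem_inter_iff, mem_interior_iff_mem_nhds]
    tauto
  -- minimal kernels consist of sets whose closures contain the point
  have hCcl : ∀ K x, x ∈ C K → ∀ P ∈ K, x ∈ closure P := by
    intro K x hx P hP
    by_contra hcl
    have h1 : K.erase P ∈ ker x := by
      rw [hker]
      refine ⟨(Finset.erase_subset _ _).trans ((hker x K).1 hx.1).1, ?_⟩
      have h2 : (closure P)ᶜ ∈ 𝓝 x := isClosed_closure.isOpen_compl.mem_nhds hcl
      filter_upwards [h2, ((hker x K).1 hx.1).2] with y hy1 hy2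
      obtain ⟨Q, hQ, hyQ⟩ := hy2
      refine ⟨Q, ?_, hyQ⟩
      rw [Finset.mem_coe, Finset.mem_erase]
      refine ⟨?_, hQ⟩
      rintro rfl
      exact hy1 (subset_closure hyQ)
    have h2 := hK0min x _ h1
    have h3 := Finset.card_erase_lt_of_mem hP
    have h4 : (K0 x).card = K.card := hx.2
    omega
  -- counting
  have hcount : ∀ x, ((ker x).filter fun K => K.card = j x).card ≤ n ^ (j x) := by
    intro x
    apply count
    · intro K hK
      exact (Finset.mem_filter.1 hK).2
    · intro L hL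
      by_cases hLP : L ⊆ Φ
      · have hLk : L ∉ ker x := fun h => absurd (hK0min x L h) (not_le.2 hL)
        have hLn : ⋃₀ (L : Set (Set X)) ∉ 𝓝 x := fun h => hLk ((hker x L).2 ⟨hLP, h⟩)
        have hN : (⋂ K ∈ ker x, ⋃₀ ((K : Finset (Set X)) : Set (Set X))) ∈ 𝓝 x := by
          rw [biInter_finset_mem]
          exact fun K hK => ((hker x K).1 hK).2
        obtain ⟨y, hyN, hyL⟩ : ∃ y, y ∈ (⋂ K ∈ ker x, ⋃₀ ((K : Finset (Set X)) : Set (Set X))) ∧
            y ∉ ⋃₀ (L : Set (Set X)) := by
          by_contra hcon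
          push Not at hcon
          exact hLn (mem_of_superset hN hcon)
        refine ⟨At y, hAtc y, ?_, ?_⟩
        · intro P hP hPL
          exact hyL ⟨P, hPL, (Finset.mem_filter.1 hP).2⟩
        · intro K hK _
          have hKx := (Finset.mem_filter.1 hK).1
          have hyK : y ∈ ⋃₀ (K : Set (Set X)) := by
            have := mem_iInter₂.1 hyN K hKx
            exact this
          obtain ⟨P, hP, hyP⟩ := hyK
          exact ⟨P, Finset.mem_filter.2 ⟨((hker x K).1 hKx).1 hP, hyP⟩, hP⟩
      · refine ⟨∅, by simp, by simp, ?_⟩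
        intro K hK hLK
        exact absurd (hLK.trans ((hker x K).1 (Finset.mem_filter.1 hK).1).1) hLP
  -- the sets of the cover used for a kernel
  have hU : ∀ K : Finset (Set X), ∃ U : Set X, IsOpen U ∧ C K ⊆ U ∧
      (U = ∅ ∨ ∃ U' ∈ 𝒰, U ⊆ U') := by
    intro K
    by_cases hK : (C K).Nonempty
    · obtain ⟨x, hx⟩ := hK
      obtain ⟨P, hP⟩ := hkne x K hx.1
      obtain ⟨U, hU, hPU⟩ := hcl P (((hker x K).1 hx.1).1 hP)
      exact ⟨U, hop U hU, fun y hy => hPU (hCcl K y hy P hP), Or.inr ⟨U, hU, Subset.rfl⟩⟩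
    · rw [not_nonempty_iff_eq_empty] at hK
      exact ⟨∅, isOpen_empty, by rw [hK], Or.inl rfl⟩
  choose U hUo hUC hUU using hU
  let E : Finset (Set X) → Set X := fun K => expand (Y K.card) (C K) 1
  let W : Finset (Set X) → Set X := fun K => E K ∩ U K
  have hWo : ∀ K, IsOpen (W K) := fun K => (isOpen_expand _ _ _).inter (hUo K)
  let 𝒱 : Set (Set X) := {V | V.Nonempty ∧ ∃ K ∈ Φ.powerset, W K = V}
  refine ⟨𝒱, ?_, ?_, ?_, ?_, ?_⟩
  · apply (Φ.powerset.finite_toSet.image W).subset
    rintro V ⟨_, K, hK, rfl⟩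
    exact ⟨K, hK, rfl⟩
  · rintro V ⟨_, K, _, rfl⟩
    exact hWo K
  · rw [eq_univ_iff_forall]
    intro x
    have hxC : x ∈ C (K0 x) := ⟨hK0 x, rfl⟩
    have hsub : K0 x ⊆ Φ := ((hker x _).1 (hK0 x)).1
    have hxW : x ∈ W (K0 x) :=
      ⟨subset_expand one_pos isOpen_interior (hCeq _ hsub) hxC, hUC _ hxC⟩
    exact ⟨W (K0 x), ⟨⟨x, hxW⟩, K0 x, Finset.mem_powerset.2 hsub, rfl⟩, hxW⟩
  · rintro V ⟨hVne, K, _, rfl⟩
    rcases hUU K with h0 | ⟨U', hU', hsub⟩
    · exfalso
      obtain ⟨x, hx⟩ := hVne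
      have := hx.2
      rw [h0] at this
      exact this
    · exact ⟨U', hU', inter_subset_right.trans hsub⟩
  · intro x
    let S : Finset (Finset (Set X)) := Φ.powerset.filter fun K => x ∈ W K
    have hsub : {V ∈ 𝒱 | x ∈ V} ⊆ W '' (S : Set (Finset (Set X))) := by
      rintro V ⟨⟨_, K, hK, rfl⟩, hx⟩
      exact ⟨K, Finset.mem_coe.2 (Finset.mem_filter.2 ⟨hK, hx⟩), rfl⟩
    refine (encard_le_encard hsub).trans ((encard_image_le _ _).trans ?_)
    rw [encard_coe_eq_coe_finsetCard]
    norm_cast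
    have hmaps : Set.MapsTo Finset.card (S : Set (Finset (Set X)))
        (Finset.Icc 1 n : Finset ℕ) := by
      intro K hK
      rw [Finset.mem_coe, Finset.mem_filter] at hK
      obtain ⟨c, hc, _⟩ := hK.2.1
      have h1 : j c = K.card := hc.2
      rw [Finset.mem_coe, Finset.mem_Icc, ← h1]
      exact ⟨hj1 c, hjn c⟩
    rw [Finset.card_eq_sum_card_fiberwise hmaps]
    apply Finset.sum_le_sum
    intro m _
    by_cases hne : (S.filter fun K => K.card = m).Nonempty
    · obtain ⟨c, hcY, hc⟩ := exists_common (Y := Y m) (C := C) (ε := 1) (x := x)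
        (S.filter fun K => K.card = m)
        (fun K hK => by
          have := hCY K
          rw [(Finset.mem_filter.1 hK).2] at this
          exact this) hne
        (fun K hK => by
          have h2 : x ∈ expand (Y K.card) (C K) 1 :=
            ((Finset.mem_filter.1 (Finset.mem_filter.1 hK).1).2).1
          rw [(Finset.mem_filter.1 hK).2] at h2
          exact h2)
      have hjc : j c = m := hcY
      have hsub2 : (S.filter fun K => K.card = m) ⊆ (ker c).filter fun K => K.card = j c := by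
        intro K hK
        have hKm := (Finset.mem_filter.1 hK).2
        rw [Finset.mem_filter]
        exact ⟨(hc K hK).1, by rw [hKm, hjc]⟩
      refine (Finset.card_le_card hsub2).trans ?_
      rw [← hjc]
      exact hcount c
    · rw [Finset.not_nonempty_iff_eq_empty] at hne
      rw [hne]
      simp

end refinement

/-! ### The lower bound -/

section lower

variable {X : Type u} [τ : TopologicalSpace X] [MetrizableSpace X]

/-- If `τ` is the intersection of the extensions `σ i`, then the union of one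
`σ i`-neighbourhood of `x` for each `i` is a `τ`-neighbourhood of `x`. -/
lemma union_mem_nhds {I : Type v} [Nonempty I] {σ : I → TopologicalSpace X}
    (h : IsIntersection τ σ) (x : X) (G : I → Set X) (hG : ∀ i, IsOpen[σ i] (G i))
    (hx : ∀ i, x ∈ G i) : (⋃ i, G i) ∈ 𝓝 x := by
  by_contra hnot
  have hcl : x ∈ closure (⋃ i, G i)ᶜ := by
    rw [closure_compl]
    intro h1
    exact hnot (mem_interior_iff_mem_nhds.1 h1)
  obtain ⟨y, hy, hyx⟩ := mem_closure_iff_seq_limit.1 hcl
  have hyG : ∀ m i, y m ∉ G i := fun m i hm => hy m (mem_iUnion.2 ⟨i, hm⟩)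
  have hK : IsClosed (insert x (range y)) := hyx.isCompact_insert_range.isClosed
  have hopen : IsOpen[τ] (range y)ᶜ := by
    apply h.inter
    intro i
    have e : (range y)ᶜ = (insert x (range y))ᶜ ∪ G i := by
      ext z
      simp only [mem_compl_iff, mem_union, mem_insert_iff, not_or]
      constructor
      · intro hz
        by_cases hzx : z = x
        · right
          rw [hzx]
          exact hx i
        · exact Or.inl ⟨hzx, hz⟩
      · rintro (⟨_, hz⟩ | hz)
        · exact hz
        · rintro ⟨m, rfl⟩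
          exact hyG m i hz
    rw [e]
    exact @IsOpen.union X _ _ (σ i) (h.extension i _ hK.isOpen_compl) (hG i)
  obtain ⟨i⟩ := ‹Nonempty I›
  have hxr : x ∈ (range y)ᶜ := by
    rintro ⟨m, hm⟩
    apply hyG m i
    rw [hm]
    exact hx i
  obtain ⟨m, hm⟩ := (hyx.eventually (hopen.mem_nhds hxr)).exists
  exact hm ⟨m, rfl⟩

/-- A metrizable topology which is the intersection of `n ≥ 1` metrizable extensions of
covering dimension zero has finite covering dimension. -/
theorem dim_of_finite {I : Type v} [Fintype I] [Nonempty I] {σ : I → TopologicalSpace X}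
    (h : IsIntersection τ σ) :
    CoveringDimLE X ((∑ j ∈ Finset.Icc 1 (Fintype.card I), Fintype.card I ^ j) - 1) := by
  classical
  let _ := metrizableSpaceMetric X
  intro 𝒰 hfin hop hcov
  -- a finite open cover whose closures refine `𝒰`
  have : Finite 𝒰 := hfin
  obtain ⟨v, hvcov, hvop, hvcl⟩ := exists_iUnion_eq_closure_subset
    (u := fun i : 𝒰 => (i : Set X)) (fun i => hop _ i.2) (fun x => toFinite _)
    (by rw [← sUnion_eq_iUnion, hcov])
  have hpart : ∀ i, ∃ 𝒱 : Set (Set X), 𝒱.Finite ∧ (∀ V ∈ 𝒱, IsOpen[σ i] V) ∧ ⋃₀ 𝒱 = univ ∧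
      (∀ V ∈ 𝒱, ∃ U ∈ range v, V ⊆ U) ∧ ∀ x, {V ∈ 𝒱 | x ∈ V}.encard ≤ 1 := by
    intro i
    obtain ⟨𝒱, h1, h2, h3, h4, h5⟩ := (h.mdim i).dim (range v) (finite_range v)
      (by rintro _ ⟨s, rfl⟩; exact h.extension i _ (hvop s)) (by rw [sUnion_range, hvcov])
    exact ⟨𝒱, h1, h2, h3, h4, by simpa using h5⟩
  choose 𝒬 hQfin hQop hQcov hQref hQord using hpart
  let Φ : Finset (Set X) := (finite_iUnion hQfin).toFinset
  have hP : ∀ P, P ∈ Φ ↔ ∃ i, P ∈ 𝒬 i := by
    intro P
    simp [Φ]
  have hcard : 1 ≤ Fintype.card I := Fintype.card_pos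
  have hsum : 1 ≤ ∑ j ∈ Finset.Icc 1 (Fintype.card I), Fintype.card I ^ j := by
    have h1 : 1 ∈ Finset.Icc 1 (Fintype.card I) := Finset.mem_Icc.2 ⟨le_rfl, hcard⟩
    have := Finset.single_le_sum (f := fun j => Fintype.card I ^ j) (fun _ _ => Nat.zero_le _) h1
    simp only [pow_one] at this
    exact hcard.trans this
  obtain ⟨𝒱, h1, h2, h3, h4, h5⟩ := exists_refinement (Fintype.card I) 𝒰 hop Φ (by
      intro P hPP
      obtain ⟨i, hi⟩ := (hP P).1 hPP
      obtain ⟨_, ⟨s, rfl⟩, hs⟩ := hQref i P hi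
      exact ⟨s, s.2, (closure_mono hs).trans (hvcl s)⟩) (by
      intro x
      have hsub : {P ∈ (Φ : Set (Set X)) | x ∈ P} ⊆
          ⋃ i ∈ (Finset.univ : Finset I), {P ∈ 𝒬 i | x ∈ P} := by
        rintro P ⟨hPP, hxP⟩
        obtain ⟨i, hi⟩ := (hP P).1 hPP
        exact mem_iUnion₂.2 ⟨i, Finset.mem_univ i, hi, hxP⟩
      refine (encard_le_encard hsub).trans ?_
      have hgen : ∀ S : Finset I, (⋃ i ∈ S, {P ∈ 𝒬 i | x ∈ P}).encard ≤ (S.card : ℕ∞) := by
        intro S
        induction S using Finset.induction_on with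
        | empty => simp
        | insert a S ha ih =>
          rw [Finset.set_biUnion_insert, Finset.card_insert_of_notMem ha, add_comm]
          refine (encard_union_le _ _).trans ?_
          push_cast
          exact add_le_add (hQord a x) ih
      have := hgen Finset.univ
      rwa [Finset.card_univ] at this) (by
      intro x
      have hex : ∀ i, ∃ G ∈ 𝒬 i, x ∈ G := by
        intro i
        have : x ∈ ⋃₀ 𝒬 i := by rw [hQcov]; trivial
        exact this
      choose G hG hxG using hex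
      apply mem_of_superset (union_mem_nhds h x G (fun i => hQop i _ (hG i)) hxG)
      intro y hy
      obtain ⟨i, hi⟩ := mem_iUnion.1 hy
      exact ⟨G i, ⟨(hP _).2 ⟨i, hG i⟩, hxG i⟩, hi⟩)
  refine ⟨𝒱, h1, h2, h3, h4, fun x => (h5 x).trans ?_⟩
  norm_cast
  omega

end lower

/-! ### Topologies defined by nested partitions -/

section nested

variable {X : Type u}

/-- The topology in which a set is open iff with each point it contains one of its classes. -/
@[instance_reducible]
def nestedTop (R : ℕ → Setoid X) (hmono : ∀ m x y, (R (m + 1)).r x y → (R m).r x y) :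
    TopologicalSpace X where
  IsOpen U := ∀ x ∈ U, ∃ m, ∀ y, (R m).r x y → y ∈ U
  isOpen_univ := fun _ _ => ⟨0, fun _ _ => trivial⟩
  isOpen_inter := by
    have hle : ∀ m m' x y, m ≤ m' → (R m').r x y → (R m).r x y := by
      intro m m' x y hmm
      induction m', hmm using Nat.le_induction with
      | base => exact id
      | succ k _ ih => exact fun h => ih (hmono _ _ _ h)
    rintro U V hU hV x ⟨hxU, hxV⟩
    obtain ⟨m, hm⟩ := hU x hxU
    obtain ⟨m', hm'⟩ := hV x hxV
    exact ⟨max m m', fun y hy => ⟨hm y (hle _ _ _ _ (le_max_left _ _) hy),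
      hm' y (hle _ _ _ _ (le_max_right _ _) hy)⟩⟩
  isOpen_sUnion := by
    rintro S hS x ⟨U, hU, hxU⟩
    obtain ⟨m, hm⟩ := hS U hU x hxU
    exact ⟨m, fun y hy => ⟨U, hU, hm y hy⟩⟩

variable (R : ℕ → Setoid X) (hmono : ∀ m x y, (R (m + 1)).r x y → (R m).r x y)

include hmono in
lemma nested_le {m m' : ℕ} {x y : X} (hmm : m ≤ m') (h : (R m').r x y) : (R m).r x y := by
  induction m', hmm using Nat.le_induction with
  | base => exact h
  | succ k _ ih => exact ih (hmono _ _ _ h)

lemma isMDim_nested (hsep : ∀ x y, (∀ m, (R m).r x y) → x = y) :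
    IsMDim (nestedTop R hmono) := by
  classical
  let σ : TopologicalSpace X := nestedTop R hmono
  have hσ : ∀ U : Set X, IsOpen[σ] U ↔ ∀ x ∈ U, ∃ m, ∀ y, (R m).r x y → y ∈ U := fun _ => Iff.rfl
  refine ⟨?_, ?_⟩
  · -- embedding into a countable product of discrete spaces
    let _ : ∀ m, TopologicalSpace (Quotient (R m)) := fun _ => ⊥
    have : ∀ m, DiscreteTopology (Quotient (R m)) := fun _ => ⟨rfl⟩
    let f : X → ∀ m, Quotient (R m) := fun x m => Quotient.mk (R m) x
    have hf : Topology.IsEmbedding f := by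
      refine ⟨⟨?_⟩, ?_⟩
      · ext U
        constructor
        · intro hU
          rw [isOpen_induced_iff]
          refine ⟨⋃ x ∈ U, ⋃ m ∈ {m | ∀ y, (R m).r x y → y ∈ U}, {g | g m = f x m}, ?_, ?_⟩
          · apply isOpen_biUnion
            intro x _
            apply isOpen_biUnion
            intro m _
            have : IsOpen ((fun g : ∀ m, Quotient (R m) => g m) ⁻¹' {f x m}) :=
              (isOpen_discrete _).preimage (continuous_apply m)
            exact this
          · ext y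
            simp only [mem_preimage, mem_iUnion, mem_ofPred_eq, exists_prop]
            constructor
            · rintro ⟨x, _, m, hm, hy⟩
              exact hm y ((R m).symm (Quotient.exact hy))
            · intro hy
              obtain ⟨m, hm⟩ := (hσ U).1 hU y hy
              exact ⟨y, hy, m, hm, rfl⟩
        · intro hU
          obtain ⟨O, hO, rfl⟩ := isOpen_induced_iff.1 hU
          rw [hσ]
          intro x hx
          obtain ⟨F, W, hW, hWO⟩ := isOpen_pi_iff.1 hO (f x) hx
          refine ⟨F.sup id, fun y hy => hWO ?_⟩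
          intro m hm
          have h1 : (R m).r x y := nested_le R hmono (Finset.le_sup (f := id) hm) hy
          have h2 : f y m = f x m := (Quotient.sound h1).symm
          rw [h2]
          exact (hW m hm).2
      · intro x y hxy
        apply hsep
        intro m
        exact Quotient.exact (congrFun hxy m)
    exact hf.metrizableSpace
  · intro 𝒰 hfin hop hcov
    have hcls : ∀ x, ∃ m, ∃ U ∈ 𝒰, {y | (R m).r x y} ⊆ U := by
      intro x
      have : x ∈ ⋃₀ 𝒰 := by rw [hcov]; trivial
      obtain ⟨U, hU, hxU⟩ := this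
      obtain ⟨m, hm⟩ := (hσ U).1 (hop U hU) x hxU
      exact ⟨m, U, hU, hm⟩
    let m : X → ℕ := fun x => Nat.find (hcls x)
    have hm : ∀ x, ∃ U ∈ 𝒰, {y | (R (m x)).r x y} ⊆ U := fun x => Nat.find_spec (hcls x)
    have hclass : ∀ {k : ℕ} {x y : X}, (R k).r x y → {z | (R k).r x z} = {z | (R k).r y z} := by
      intro k x y hxy
      ext z
      exact ⟨fun h => (R k).trans ((R k).symm hxy) h, fun h => (R k).trans hxy h⟩
    have hmle : ∀ x y, (R (m x)).r x y → m y ≤ m x := by
      intro x y hxy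
      apply Nat.find_min' (hcls y)
      rw [← hclass hxy]
      exact hm x
    have hmeq : ∀ x y, (R (m x)).r x y → m y = m x := by
      intro x y hxy
      have h1 := hmle x y hxy
      apply le_antisymm h1
      apply hmle y x
      exact (R (m y)).symm (nested_le R hmono h1 hxy)
    let A : X → Set X := fun x => {y | (R (m x)).r x y}
    have hA : ∀ x y, (R (m x)).r x y → A y = A x := by
      intro x y hxy
      simp only [A]
      rw [hmeq x y hxy]
      exact (hclass hxy).symm
    let u : Set X → Set X := fun B => if h : ∃ U ∈ 𝒰, B ⊆ U then h.choose else ∅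
    have hu : ∀ x, u (A x) ∈ 𝒰 ∧ A x ⊆ u (A x) := by
      intro x
      have h : ∃ U ∈ 𝒰, A x ⊆ U := hm x
      have : u (A x) = h.choose := dif_pos h
      rw [this]
      exact h.choose_spec
    refine ⟨(fun U => {x | u (A x) = U}) '' 𝒰, hfin.image _, ?_, ?_, ?_, ?_⟩
    · rintro _ ⟨U, _, rfl⟩
      rw [hσ]
      intro x hx
      refine ⟨m x, fun y hy => ?_⟩
      have : A y = A x := hA x y hy
      change u (A y) = U
      rw [this]
      exact hx
    · rw [eq_univ_iff_forall]
      intro x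
      exact ⟨_, ⟨u (A x), (hu x).1, rfl⟩, rfl⟩
    · rintro _ ⟨U, hU, rfl⟩
      refine ⟨U, hU, fun x hx => ?_⟩
      have hx' : u (A x) = U := hx
      rw [← hx']
      exact (hu x).2 ((R (m x)).refl x)
    · intro x
      have : {V ∈ (fun U => {x | u (A x) = U}) '' 𝒰 | x ∈ V} ⊆ {{z | u (A z) = u (A x)}} := by
        rintro _ ⟨⟨U, _, rfl⟩, hx⟩
        have hx' : u (A x) = U := hx
        rw [mem_singleton_iff, hx']
      refine (encard_le_encard this).trans ?_
      simp

end nested

/-! ### The upper bound -/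

section upper

/-- Separation of closed sets by clopen sets. -/
lemma exists_clopen {Y : Type u} [TopologicalSpace Y] (h : CoveringDimLE Y 0) {F O : Set Y}
    (hF : IsClosed F) (hO : IsOpen O) (hFO : F ⊆ O) : ∃ W, IsClopen W ∧ F ⊆ W ∧ W ⊆ O := by
  classical
  obtain ⟨𝒱, hfin, hop, hcov, href, hord⟩ := h {O, Fᶜ} (toFinite _) (by
      rintro U (rfl | rfl)
      · exact hO
      · exact hF.isOpen_compl) (by
      rw [eq_univ_iff_forall]
      intro y
      by_cases hy : y ∈ F
      · exact ⟨O, by simp, hFO hy⟩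
      · exact ⟨Fᶜ, by simp, hy⟩)
  have huniq : ∀ V ∈ 𝒱, ∀ V' ∈ 𝒱, ∀ y, y ∈ V → y ∈ V' → V = V' := by
    intro V hV V' hV' y hy hy'
    have h1 := hord y
    simp only [Nat.cast_zero, zero_add] at h1
    rw [encard_le_one_iff] at h1
    exact h1 V V' ⟨hV, hy⟩ ⟨hV', hy'⟩
  refine ⟨⋃₀ {V ∈ 𝒱 | (V ∩ F).Nonempty}, ⟨?_, ?_⟩, ?_, ?_⟩
  · have : (⋃₀ {V ∈ 𝒱 | (V ∩ F).Nonempty})ᶜ = ⋃₀ {V ∈ 𝒱 | ¬ (V ∩ F).Nonempty} := by
      ext y
      constructor
      · intro hy
        have : y ∈ ⋃₀ 𝒱 := by rw [hcov]; trivial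
        obtain ⟨V, hV, hyV⟩ := this
        refine ⟨V, ⟨hV, fun hne => hy ⟨V, ⟨hV, hne⟩, hyV⟩⟩, hyV⟩
      · rintro ⟨V, ⟨hV, hne⟩, hyV⟩ ⟨V', ⟨hV', hne'⟩, hyV'⟩
        rw [huniq V hV V' hV' y hyV hyV'] at hne
        exact hne hne'
    rw [← isOpen_compl_iff, this]
    exact isOpen_sUnion fun V hV => hop V hV.1
  · exact isOpen_sUnion fun V hV => hop V hV.1
  · intro y hy
    have : y ∈ ⋃₀ 𝒱 := by rw [hcov]; trivial
    obtain ⟨V, hV, hyV⟩ := this
    exact ⟨V, ⟨hV, ⟨y, hyV, hy⟩⟩, hyV⟩
  · rintro y ⟨V, ⟨hV, ⟨z, hzV, hzF⟩⟩, hyV⟩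
    obtain ⟨U, hU, hVU⟩ := href V hV
    rcases hU with rfl | hU
    · exact hVU hyV
    · exfalso
      rw [mem_singleton_iff] at hU
      subst hU
      exact hVU hzV hzF

/-- Zero-dimensional paracompact normal spaces: every open cover has a disjoint open
refinement. -/
lemma exists_partition {Y : Type u} [TopologicalSpace Y] [ParacompactSpace Y] [NormalSpace Y]
    (h : CoveringDimLE Y 0) {ι : Type v} (U : ι → Set Y) (hU : ∀ a, IsOpen (U a))
    (hcov : (⋃ a, U a) = univ) :
    ∃ π : Y → ι, (∀ a, IsOpen {y | π y = a}) ∧ ∀ y, y ∈ U (π y) := by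
  classical
  obtain ⟨v, hvo, hvc, hvlf, hvu⟩ := precise_refinement U hU hcov
  obtain ⟨w, hwc, _, hwv⟩ := exists_iUnion_eq_closure_subset hvo (fun x => hvlf.point_finite x) hvc
  choose W hWclo hWw hWv using fun a => exists_clopen h isClosed_closure (hvo a) (hwv a)
  have hWlf : LocallyFinite W := hvlf.subset hWv
  obtain ⟨_, hwf⟩ := exists_wellFoundedLT ι
  have hne : ∀ y, {a | y ∈ W a}.Nonempty := by
    intro y
    have : y ∈ ⋃ a, w a := by rw [hwc]; trivial
    obtain ⟨a, ha⟩ := mem_iUnion.1 this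
    exact ⟨a, hWw a (subset_closure ha)⟩
  let π : Y → ι := fun y => wellFounded_lt.min {a | y ∈ W a} (hne y)
  have hπ : ∀ y, y ∈ W (π y) := fun y => wellFounded_lt.min_mem _ (hne y)
  have hπmin : ∀ y a, y ∈ W a → ¬ a < π y := fun y a ha =>
    wellFounded_lt.not_lt_min {a | y ∈ W a} ha
  refine ⟨π, fun a => ?_, fun y => hvu _ (hWv _ (hπ y))⟩
  have : {y | π y = a} = W a ∩ (⋃ b : {b // b < a}, W b)ᶜ := by
    ext y
    constructor
    · rintro rfl
      refine ⟨hπ y, fun hy => ?_⟩
      obtain ⟨⟨b, hb⟩, hyb⟩ := mem_iUnion.1 hy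
      exact hπmin y b hyb hb
    · rintro ⟨hya, hy⟩
      have h1 : ¬ a < π y := hπmin y a hya
      have h2 : ¬ π y < a := fun hlt => hy (mem_iUnion.2 ⟨⟨π y, hlt⟩, hπ y⟩)
      exact le_antisymm (not_lt.1 h1) (not_lt.1 h2)
  rw [this]
  apply (hWclo a).isOpen.inter
  rw [isOpen_compl_iff]
  apply LocallyFinite.isClosed_iUnion
  · exact hWlf.comp_injective (g := fun b : {b // b < a} => (b : ι)) Subtype.val_injective
  · exact fun b => (hWclo b).isClosed

variable {X : Type u} [τ : TopologicalSpace X] [MetrizableSpace X]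

/-- For a zero-dimensional subspace `Y` there is an extension which is metrizable of covering
dimension zero and does not change the neighbourhoods of the points of `Y`. -/
lemma exists_extension (Y : Set X) (hY : CoveringDimLE Y 0) :
    ∃ σ : TopologicalSpace X, (∀ U : Set X, IsOpen[τ] U → IsOpen[σ] U) ∧ IsMDim σ ∧
      ∀ U : Set X, IsOpen[σ] U → ∀ x ∈ Y, x ∈ U → U ∈ @nhds X τ x := by
  classical
  let _ := metrizableSpaceMetric X
  let ε : ℕ → ℝ := fun m => 1 / ((m : ℝ) + 1)
  have hε : ∀ m, 0 < ε m := fun m => Nat.one_div_pos_of_nat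
  have hεmono : ∀ m, ε (m + 1) ≤ ε m := by
    intro m
    apply Nat.one_div_le_one_div (Nat.le_succ m)
  have hpart : ∀ m, ∃ π : Y → Y, (∀ a, IsOpen {y | π y = a}) ∧ ∀ y, dist y (π y) < ε m := by
    intro m
    obtain ⟨π, h1, h2⟩ := exists_partition hY (fun a : Y => Metric.ball a (ε m))
      (fun a => Metric.isOpen_ball) (by
        rw [eq_univ_iff_forall]
        intro y
        exact mem_iUnion.2 ⟨y, Metric.mem_ball_self (hε m)⟩)
    exact ⟨π, h1, h2⟩
  choose π hπo hπd using hpart
  -- the nested classes in `Y`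
  let E : ℕ → Y → Set Y := fun m y => {z | ∀ k ≤ m, π k z = π k y}
  have hEo : ∀ m y, IsOpen (E m y) := by
    intro m y
    have : E m y = ⋂ k ∈ Iic m, {z | π k z = π k y} := by
      ext z
      simp [E]
    rw [this]
    exact (finite_Iic m).isOpen_biInter fun k _ => hπo k _
  have hEself : ∀ m y, y ∈ E m y := fun m y k _ => rfl
  have hEeq : ∀ m y z c, c ∈ E m y → c ∈ E m z → E m y = E m z := by
    intro m y z c hy hz
    ext w
    simp only [E, mem_ofPred_eq]
    constructor
    · intro h k hk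
      rw [h k hk, ← hy k hk, hz k hk]
    · intro h k hk
      rw [h k hk, ← hz k hk, hy k hk]
  -- expansions
  let G : ℕ → Y → Set X := fun m y => expand Y (Subtype.val '' E m y) (ε m)
  have hGo : ∀ m y, IsOpen (G m y) := fun m y => isOpen_expand _ _ _
  have hGself : ∀ m (y : Y), (y : X) ∈ G m y := by
    intro m y
    obtain ⟨O, hO, hOE⟩ := isOpen_induced_iff.1 (hEo m y)
    apply subset_expand (hε m) hO
    · rw [← hOE, Subtype.image_preimage_val]
    · exact ⟨y, hEself m y, rfl⟩
  have hGmono : ∀ m y, G (m + 1) y ⊆ G m y := by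
    intro m y
    apply expand_mono _ (hεmono m)
    apply image_mono
    intro z hz k hk
    exact hz k (hk.trans (Nat.le_succ m))
  have hGeq : ∀ m y z x, x ∈ G m y → x ∈ G m z → G m y = G m z := by
    intro m y z x hy hz
    have : E m y = E m z := by
      obtain ⟨c, _, hc⟩ := exists_common (Y := Y) (C := fun b : Bool =>
        Subtype.val '' (if b then E m y else E m z)) (ε := ε m) (x := x) Finset.univ (by
          rintro b _ _ ⟨w, _, rfl⟩
          exact w.2) ⟨true, Finset.mem_univ _⟩ (by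
          intro b _
          cases b
          · exact hz
          · exact hy)
      obtain ⟨c1, h1, h1'⟩ := hc true (Finset.mem_univ _)
      obtain ⟨c2, h2, h2'⟩ := hc false (Finset.mem_univ _)
      have h12 : c1 = c2 := Subtype.ext (h1'.trans h2'.symm)
      simp only [if_true] at h1
      simp only [Bool.false_eq_true, if_false] at h2
      rw [h12] at h1
      exact hEeq m y z c2 h1 h2
    simp only [G, this]
  have hGd : ∀ m y x, x ∈ G m y → dist x y < 3 * ε m := by
    rintro m y x ⟨_, ⟨c, hc, rfl⟩, r, _, hrε, hxc, _⟩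
    have h1 : dist (c : X) (π m c) < ε m := hπd m c
    have h2 : dist (y : X) (π m y) < ε m := hπd m y
    rw [hc m le_rfl] at h1
    have h3 := dist_triangle x c y
    have h4 := dist_triangle (c : X) (π m y) y
    rw [dist_comm (π m y : X) y] at h4
    linarith
  -- the equivalence relations
  let R : ℕ → Setoid X := fun m =>
    { r := fun x x' => x = x' ∨ ∃ y : Y, x ∈ G m y ∧ x' ∈ G m y
      iseqv := by
        refine ⟨fun x => Or.inl rfl, ?_, ?_⟩
        · rintro x x' (h | ⟨y, h1, h2⟩)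
          · exact Or.inl h.symm
          · exact Or.inr ⟨y, h2, h1⟩
        · rintro x x' x'' (rfl | ⟨y, h1, h2⟩) h'
          · exact h'
          · rcases h' with rfl | ⟨z, h3, h4⟩
            · exact Or.inr ⟨y, h1, h2⟩
            · right
              refine ⟨y, h1, ?_⟩
              rw [hGeq m y z x' h2 h3]
              exact h4 }
  have hR : ∀ m x x', (R m).r x x' ↔ x = x' ∨ ∃ y : Y, x ∈ G m y ∧ x' ∈ G m y :=
    fun _ _ _ => Iff.rfl
  have hmono : ∀ m x y, (R (m + 1)).r x y → (R m).r x y := by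
    intro m x x'
    rw [hR, hR]
    rintro (h | ⟨y, h1, h2⟩)
    · exact Or.inl h
    · exact Or.inr ⟨y, hGmono m y h1, hGmono m y h2⟩
  have hdist : ∀ m x x', (R m).r x x' → dist x x' < 6 * ε m := by
    intro m x x'
    rw [hR]
    rintro (rfl | ⟨y, h1, h2⟩)
    · rw [dist_self]
      have := hε m
      linarith
    · have h3 := hGd m y x h1
      have h4 := hGd m y x' h2
      have h5 := dist_triangle x y x'
      rw [dist_comm (y : X) x'] at h5
      linarith
  have hlim : ∀ δ : ℝ, 0 < δ → ∃ m, 6 * ε m < δ := by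
    intro δ hδ
    obtain ⟨m, hm⟩ := exists_nat_one_div_lt (by positivity : (0 : ℝ) < δ / 6)
    refine ⟨m, ?_⟩
    have : ε m < δ / 6 := hm
    linarith
  have hsep : ∀ x y, (∀ m, (R m).r x y) → x = y := by
    intro x y hxy
    by_contra hne
    obtain ⟨m, hm⟩ := hlim (dist x y) (dist_pos.2 hne)
    have := hdist m x y (hxy m)
    linarith
  refine ⟨nestedTop R hmono, ?_, isMDim_nested R hmono hsep, ?_⟩
  · intro U hU x hx
    obtain ⟨δ, hδ, hball⟩ := Metric.isOpen_iff.1 hU x hx
    obtain ⟨m, hm⟩ := hlim δ hδ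
    refine ⟨m, fun y hy => hball ?_⟩
    rw [Metric.mem_ball, dist_comm]
    exact (hdist m x y hy).trans hm
  · intro U hU x hxY hxU
    obtain ⟨m, hm⟩ := hU x hxU
    apply mem_of_superset ((hGo m ⟨x, hxY⟩).mem_nhds (hGself m ⟨x, hxY⟩))
    intro y hy
    exact hm y (Or.inr ⟨⟨x, hxY⟩, hGself m ⟨x, hxY⟩, hy⟩)

/-- A countable-dimensional metrizable topology is the intersection of a sequence of metrizable
extensions of covering dimension zero. -/
theorem exists_sequence (hX : CountableDimensional X) :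
    ∃ σ : ℕ → TopologicalSpace X, IsIntersection τ σ := by
  obtain ⟨Y, hYc, hY⟩ := hX
  choose σ h1 h2 h3 using fun k => exists_extension (Y k) (hY k)
  refine ⟨σ, h1, h2, fun U hU => ?_⟩
  rw [isOpen_iff_mem_nhds]
  intro x hx
  have : x ∈ ⋃ k, Y k := by rw [hYc]; trivial
  obtain ⟨k, hk⟩ := mem_iUnion.1 this
  exact h3 k U (hU k) x hk hx

end upper

/-- The discrete topology has covering dimension zero. -/
lemma dim_discrete {X : Type u} [τ : TopologicalSpace X] (h : ∀ U : Set X, IsOpen U) :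
    CoveringDimLE X 0 := by
  let R : ℕ → Setoid X := fun _ => ⊥
  have hmono : ∀ m x y, (R (m + 1)).r x y → (R m).r x y := fun _ _ _ h => h
  have hM := isMDim_nested R hmono (fun x y hxy => hxy 0)
  have : nestedTop R hmono = τ := by
    ext U
    refine ⟨fun _ => h U, fun _ x hx => ⟨0, fun y hy => ?_⟩⟩
    have hxy : x = y := hy
    rwa [← hxy]
  rw [this] at hM
  exact hM.dim

/-- **The structural number of infinite-dimensional countable-dimensional metrizable spaces.**
Let `(X, τ)` be a metrizable countable-dimensional space of infinite covering dimension. Then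
`ℵ₀` is the least cardinality of a family of metrizable extensions of `τ` of covering dimension
zero whose intersection is `τ`. Moreover (second part), if any metrizable topology is the
intersection of a family, indexed by a finite nonempty type with `n` elements, of metrizable
extensions of covering dimension zero, then its covering dimension is at most
`(n + n ^ 2 + ... + n ^ n) - 1`. -/
theorem result (X : Type u) [τ : TopologicalSpace X] [MetrizableSpace X] :
    (CountableDimensional X → (∀ n, ¬ CoveringDimLE X n) →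
      IsLeast {κ : Cardinal.{u} | ∃ (I : Type u) (σ : I → TopologicalSpace X),
        #I = κ ∧ IsIntersection τ σ} ℵ₀) ∧
    ∀ (I : Type u) [Fintype I] [Nonempty I] (σ : I → TopologicalSpace X), IsIntersection τ σ →
      CoveringDimLE X ((∑ j ∈ Finset.Icc 1 (Fintype.card I), Fintype.card I ^ j) - 1) := by
  refine ⟨fun hX hinf => ⟨?_, ?_⟩, fun I _ _ σ h => dim_of_finite h⟩
  · obtain ⟨σ, hσ⟩ := exists_sequence hX
    refine ⟨ULift ℕ, fun i => σ i.down, by simp, ⟨fun i => hσ.extension i.down,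
      fun i => hσ.mdim i.down, fun U hU => hσ.inter U fun k => hU ⟨k⟩⟩⟩
  · rintro κ ⟨I, σ, rfl, hσ⟩
    by_contra hlt
    rw [not_le, Cardinal.lt_aleph0_iff_finite] at hlt
    have := Fintype.ofFinite I
    rcases isEmpty_or_nonempty I with hI | hI
    · exact hinf 0 (dim_discrete fun U => hσ.inter U fun i => (hI.false i).elim)
    · exact hinf _ (dim_of_finite hσ)

end Pool.Agent.Results.MP_e04a0d_gt.SnCountable
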